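import Pool.Agent.H491R3.J.Final

/-!
# The uniform ratios formula for the Jacobi symbols of odd squarefree modulus fails under GRH

Taking the combination `2 S(X/2) - S(X/4) - S(X)` removes the first main term, which is linear
in `X`.  With `α = -β`, `Re β = 1/5`, the functional equation turns what is left into a bound for
a sum over `n` of `n^β (± L(1/2 + β) / L(1/2 + γ) - …)`.  Integrating against a Gaussian in
`Im β` around `X^(0.98)` of width `X^(0.96)` multiplied by Dirichlet polynomials over `n'` close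
to `X`, and against a Gaussian in `Im γ` which picks the coefficient of a prime `p` in
`1 / L(1/2 + γ)`, isolates the terms with `n` close to `n'`; summing over many primes `p` the
diagonal `n = n'` has a positive proportion of the trivial size for each `p`, while the formula
would make it smaller by a power of `X`.
-/

set_option autoImplicit false

namespace Pool.Agent.Results.MP_291b24_nt.UniformFails

open Complex Pool.Agent.H491R3.J

/-- Under GRH for the `L(s, χ_n)`, for every `0 < ε ≤ 1/100` and all `c, C > 0` the ratios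
formula with error `O(X^(1/2 + ε))` does not hold uniformly on the region
`-1/4 < Re α < 1/4`, `c / log X ≤ Re β < 1/4`, `|Im α|, |Im β| ≤ C X^(1 - ε)`; it already
fails on the lines `Re α = -1/5`, `Re β = 1/10`. -/
theorem result : GRHJ → ∀ ε c C : ℝ, 0 < ε → ε ≤ 1 / 100 → 0 < c → 0 < C → ∀ K : ℝ,
    ∃ X : ℝ, 2 ≤ X ∧ ∃ α β : ℂ, α.re = -(1 / 5) ∧ β.re = 1 / 10 ∧ c / Real.log X ≤ β.re ∧
      |α.im| ≤ C * X ^ (1 - ε) ∧ |β.im| ≤ C * X ^ (1 - ε) ∧
      K * X ^ (1 / 2 + ε) < ‖SX X α β - M1 X α β - M2 X α β‖ := by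
  intro hG ε c C _ hε _ hC K
  by_contra hcon
  push Not at hcon
  refine not_uniform hG (c := c) hC ⟨|K|, fun X hX α β h1 h2 h3 h5 h6 => ?_⟩
  have hX1 : (1 : ℝ) ≤ X := by linarith
  have hpow : X ^ (1 - (1 / 100 : ℝ)) ≤ X ^ (1 - ε) :=
    Real.rpow_le_rpow_of_exponent_le hX1 (by linarith)
  have hpow2 : X ^ (1 / 2 + ε) ≤ X ^ (1 / 2 + (1 / 100 : ℝ)) :=
    Real.rpow_le_rpow_of_exponent_le hX1 (by linarith)
  have hp0 : 0 ≤ X ^ (1 / 2 + ε) := Real.rpow_nonneg (by linarith) _
  have h := hcon X hX α β h1 h2 h3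
    (h5.trans (mul_le_mul_of_nonneg_left hpow hC.le))
    (h6.trans (mul_le_mul_of_nonneg_left hpow hC.le))
  calc ‖SX X α β - M1 X α β - M2 X α β‖ ≤ K * X ^ (1 / 2 + ε) := h
    _ ≤ |K| * X ^ (1 / 2 + ε) := mul_le_mul_of_nonneg_right (le_abs_self K) hp0
    _ ≤ |K| * X ^ (1 / 2 + (1 / 100 : ℝ)) := mul_le_mul_of_nonneg_left hpow2 (abs_nonneg K)

end Pool.Agent.Results.MP_291b24_nt.UniformFails
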